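import Pool.Agent.PFE.StmtsE2b

/-! Squad PFE, row WSE (234): the structure `WS` of the local algebra. -/

set_option autoImplicit false

open scoped BigOperators

noncomputable section

namespace Pool.Agent.PFE.H85

open Pool.Agent.PFC.B1 (FS)

section

variable {R A X S J Ω Ω' W : Type} [CommRing R] [Ring A] [Algebra R A] [Group X] [Fintype X]
  [Ring S] [Algebra R S] {y : A} {l : ℕ} {χ : X →* R}

theorem p_congr (L : LS R A X S y l χ) {x x' : X} (a : Nx y χ x) (a' : Nx y χ x') (hx : x = x')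
    (ha : (a : A) = a') : L.p x a = L.p x' a' := by
  subst hx
  congr 1
  exact Subtype.ext ha

omit [Fintype X] in
theorem mem_one {a : A} (h : y * a = a * y) : a ∈ Nx y χ 1 := by
  show y * a = χ 1 • (a * y)
  rw [map_one, one_smul, h]

end

theorem wse (stf : StfStmt) : WseStmt := by
  intro R A X S J Ω Ω' W _ _ _ _ _ _ _ _ _ _ _ _ _ _ y l χ D Y L
  obtain ⟨f, hg', sy, t1, fb, fb', -⟩ := stf R A X S J Ω Ω' y l χ D L
  have hom : ∀ w, Y.om w ∈ Nx y χ 1 := fun w => mem_one (Y.omy w)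
  have hrho : Y.rho ∈ Nx y χ 1 := mem_one (Y.rc y).symm
  have homm : ∀ w w', L.p 1 ⟨Y.om (w * w'), hom (w * w')⟩ =
      L.p 1 ⟨Y.om w, hom w⟩ * L.p 1 ⟨Y.om w', hom w'⟩ := by
    intro w w'
    rw [L.mul]
    exact p_congr L _ _ (mul_one 1).symm (map_mul Y.om w w')
  have hom1 : L.p 1 ⟨Y.om 1, hom 1⟩ = 1 := by
    rw [← L.one]
    exact p_congr L _ _ rfl (map_one Y.om)
  obtain ⟨om, hOm⟩ : ∃ om : W →* S, ∀ w, om w = L.p 1 ⟨Y.om w, hom w⟩ :=
    ⟨{ toFun := fun w => L.p 1 ⟨Y.om w, hom w⟩, map_one' := hom1, map_mul' := homm },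
      fun _ => rfl⟩
  have hcen : ∀ s, L.p 1 ⟨Y.rho, hrho⟩ * s = s * L.p 1 ⟨Y.rho, hrho⟩ := by
    intro s
    rw [← L.cs s, Finset.mul_sum, Finset.sum_mul]
    refine Finset.sum_congr rfl fun x _ => ?_
    obtain ⟨a, ha⟩ := L.ps x s
    rw [← ha, L.mul, L.mul]
    exact p_congr L _ _ (by rw [one_mul, mul_one]) (Y.rc a)
  have hunit : IsUnit (L.p 1 ⟨Y.rho, hrho⟩) := by
    obtain ⟨u, hu⟩ := Y.ru
    have h1 : (Y.rho) * (↑u⁻¹ : A) = 1 := by rw [← hu, Units.mul_inv]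
    have h2 : (↑u⁻¹ : A) * Y.rho = 1 := by rw [← hu, Units.inv_mul]
    have h3 : y * (↑u⁻¹ : A) = ↑u⁻¹ * y := by
      calc y * (↑u⁻¹ : A) = ↑u⁻¹ * Y.rho * (y * ↑u⁻¹) := by rw [h2, one_mul]
        _ = ↑u⁻¹ * (Y.rho * y) * ↑u⁻¹ := by simp only [mul_assoc]
        _ = ↑u⁻¹ * (y * Y.rho) * ↑u⁻¹ := by rw [Y.rc]
        _ = ↑u⁻¹ * y * (Y.rho * ↑u⁻¹) := by simp only [mul_assoc]
        _ = ↑u⁻¹ * y := by rw [h1, mul_one]
    have h4 : L.p 1 ⟨Y.rho, hrho⟩ * L.p 1 ⟨(↑u⁻¹ : A), mem_one h3⟩ = 1 := by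
      rw [L.mul, ← L.one]
      exact p_congr L _ _ (mul_one 1) h1
    have h5 : L.p 1 ⟨(↑u⁻¹ : A), mem_one h3⟩ * L.p 1 ⟨Y.rho, hrho⟩ = 1 := by
      rw [L.mul, ← L.one]
      exact p_congr L _ _ (mul_one 1) h2
    exact ⟨⟨_, _, h4, h5⟩, rfl⟩
  have hgg : ∀ o, D.g o * D.g' o ∈ Nx y χ 1 := by
    intro o
    have h := Nx_mul (show D.g o ∈ Nx y χ (D.deg o) from D.gy o) (hg' o)
    rwa [mul_inv_cancel] at h
  have hrr : ∑ o, f.b o * f.b' o = (Fintype.card W : R) • L.p 1 ⟨Y.rho, hrho⟩ := by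
    have h1 : ∀ o, f.b o * f.b' o = L.p 1 ⟨D.g o * D.g' o, hgg o⟩ := by
      intro o
      rw [fb, fb', L.mul]
      exact p_congr L _ _ (mul_inv_cancel _) rfl
    simp_rw [h1]
    rw [← map_sum, ← map_smul, ← sub_eq_zero, ← map_sub, L.ker]
    have h2 : ((∑ o, (⟨D.g o * D.g' o, hgg o⟩ : Nx y χ 1) -
        (Fintype.card W : R) • (⟨Y.rho, hrho⟩ : Nx y χ 1) : Nx y χ 1) : A) =
        -∑ o, Tx y l (χ 1) (D.h o * D.h' o) := by
      rw [Submodule.coe_sub, Submodule.coe_sum, Submodule.coe_smul]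
      change ∑ o, D.g o * D.g' o - (Fintype.card W : R) • Y.rho = _
      rw [← Y.rr, Yd.RT, Fintype.sum_sum_type]
      have h3 : ∀ o, D.e (Sum.inl o) * 1 * D.e' (Sum.inl o) = D.g o * D.g' o := by
        intro o
        rw [mul_one]
        rfl
      have h4 : ∑ r : Ω' × Fin l, D.e (Sum.inr r) * 1 * D.e' (Sum.inr r) =
          ∑ o, Tx y l (χ 1) (D.h o * D.h' o) := by
        rw [Fintype.sum_prod_type]
        refine Finset.sum_congr rfl fun o _ => ?_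
        rw [Tx, map_one, Finset.sum_range]
        refine Finset.sum_congr rfl fun i _ => ?_
        rw [one_pow, one_smul, mul_one]
        change y ^ (i : ℕ) * D.h o * (D.h' o * y ^ (l - 1 - (i : ℕ))) = _
        simp only [mul_assoc]
      simp_rw [h3]
      rw [h4]
      abel
    rw [h2]
    refine Submodule.neg_mem _ (Submodule.sum_mem _ fun o _ => Submodule.subset_span ?_)
    exact Or.inl ⟨_, rfl⟩
  have hgb : ∀ o, L.c (D.deg o) (f.b o) = f.b o := by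
    intro o
    rw [fb]
    exact L.pc _ _
  have hgb' : ∀ o, L.c (D.deg o)⁻¹ (f.b' o) = f.b' o := by
    intro o
    rw [fb']
    exact L.pc _ _
  have ho1 : ∀ w, L.c 1 (om w) = om w := by
    intro w
    rw [hOm]
    exact L.pc _ _
  have hbw : ∀ (w : W × W) (o : Ω), f.b (w • o) = om w.1 * f.b o * om w.2⁻¹ := by
    intro w o
    rw [fb, fb, hOm, hOm, L.mul, L.mul]
    exact p_congr L _ _ (by rw [Y.dg, one_mul, mul_one]) (Y.gw w o)
  have hbw' : ∀ (w : W × W) (o : Ω), f.b' (w • o) = om w.2 * f.b' o * om w.1⁻¹ := by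
    intro w o
    rw [fb', fb', hOm, hOm, L.mul, L.mul]
    exact p_congr L _ _ (by rw [Y.dg, one_mul, mul_one]) (Y.gw' w o)
  exact ⟨⟨f, sy, t1, D.deg, Y.dg, Y.fo, hgb, hgb', om, ho1, hbw, hbw', L.p 1 ⟨Y.rho, hrho⟩,
    hcen, hunit, hrr⟩, rfl, fb, fun o _ => fb' o, fun w _ => hOm w, fun _ => rfl⟩

end Pool.Agent.PFE.H85
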